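import Pool.Agent.P.MP_f1f3c4_lc.Main

open Pool.Agent.Lib.Forcing Pool.Agent.P.MP_af0a18_lc Pool.Agent.P.MP_f1f3c4_lc

/-- There is a countable transitive model `N` of ZFC, with `ν` its first uncountable cardinal,
in which the special tree number is smaller than the no-new-reals number. -/
theorem Pool.Agent.Results.MP_f1f3c4_lc.StLtNo.result :
    ∃ N : Set ZFSet.{0}, N.Countable ∧ IsZFModel N ∧ Choice N ∧ ∃ ν ∈ N,
      IsCardinalIn N ν ∧ ZFSet.omega ∈ ν ∧ (∀ μ ∈ ν, IsCardinalIn N μ → μ ⊆ ZFSet.omega) ∧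
      ∃ st no, IsLeastOrd (StAt N ν) st ∧ IsLeastOrd (NoAt N ν) no ∧ st ∈ no :=
  exists_model
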